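import Mathlib
import Pool.Agent.Results.MP_0fb2ec_lc.DivergentSums

/-!
# `𝔟_b^eq < non(ℰ)` for all summable `b` in the Mathias model

`𝔟_b^eq ≤ 𝔡(≠*, b)`, where `𝔡(≠*, b)` is the least size of a family `𝒢 ⊆ ∏ b` such that every function is
eventually different from some member of `𝒢`, and `𝔰 ≤ non(ℰ)`, where `𝔰` is the splitting number. So
`𝔟_b^eq < non(ℰ)` whenever `𝔡(≠*, b) < 𝔰`. In the Mathias model `𝔰 = 𝔥 = ℵ₂`, and `𝔡(≠*, b) = ℵ₁` for all `b`
which tend to infinity, by the Laver property.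
-/

set_option autoImplicit false

namespace Pool.Agent.Results.MP_00464d_lc.MathiasModel

open Filter Cardinal MeasureTheory
open scoped ENNReal
open Pool.Agent.Results.MP_0fb2ec_lc.DivergentSums (Prod IsPartition Sq bEq dEq coin IsE nonE covE
  null_of_isE)

/-! ### Definitions used in the statement -/

/-- `𝔡(≠*, b)`: the least cardinality of a set `𝒢 ⊆ ∏ b` such that every function is eventually
different from some member of `𝒢`. -/
noncomputable def dNe (b : ℕ → ℕ) : Cardinal.{0} :=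
  sInf {κ | ∃ 𝒢 : Set (ℕ → ℕ), 𝒢 ⊆ Prod b ∧
    (∀ x : ℕ → ℕ, ∃ y ∈ 𝒢, ∀ᶠ n in atTop, x n ≠ y n) ∧ #𝒢 = κ}

/-- The set with characteristic function `x` splits `X`. -/
def Splits (x : ℕ → Bool) (X : Set ℕ) : Prop :=
  {n | n ∈ X ∧ x n = true}.Infinite ∧ {n | n ∈ X ∧ x n = false}.Infinite

/-- The splitting number `𝔰`. -/
noncomputable def sNum : Cardinal.{0} :=
  sInf {κ | ∃ S : Set (ℕ → Bool), (∀ X : Set ℕ, X.Infinite → ∃ x ∈ S, Splits x X) ∧ #S = κ}

/-! ### The proofs -/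

theorem exists_d {b : ℕ → ℕ} (hb : ∀ k, 1 ≤ b k) (hb2 : ∀ᶠ k in atTop, 2 ≤ b k) :
    ∃ 𝒢 : Set (ℕ → ℕ), 𝒢 ⊆ Prod b ∧
      (∀ x : ℕ → ℕ, ∃ y ∈ 𝒢, ∀ᶠ n in atTop, x n ≠ y n) ∧ #𝒢 = dNe b := by
  have hne : {κ | ∃ 𝒢 : Set (ℕ → ℕ), 𝒢 ⊆ Prod b ∧
      (∀ x : ℕ → ℕ, ∃ y ∈ 𝒢, ∀ᶠ n in atTop, x n ≠ y n) ∧ #𝒢 = κ}.Nonempty := by
    refine ⟨_, Prod b, subset_rfl, fun x => ?_, rfl⟩
    refine ⟨fun n => if 2 ≤ b n ∧ x n = 0 then 1 else 0, fun n => ?_, ?_⟩
    · have := hb n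
      show (if 2 ≤ b n ∧ x n = 0 then 1 else 0) < b n
      split_ifs with hc <;> omega
    · filter_upwards [hb2] with n hn
      show x n ≠ (if 2 ≤ b n ∧ x n = 0 then 1 else 0)
      split_ifs with hc
      · omega
      · intro h0
        exact hc ⟨hn, h0⟩
  exact csInf_mem hne

theorem bEq_le_dNe {b : ℕ → ℕ} (hb : ∀ k, 1 ≤ b k) (hb2 : ∀ᶠ k in atTop, 2 ≤ b k) :
    bEq b ≤ dNe b := by
  obtain ⟨𝒢, hsub, hwit, hcard⟩ := exists_d hb hb2
  rw [← hcard]
  refine csInf_le' ⟨𝒢, hsub, ?_, rfl⟩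
  rintro ⟨a, ha, h, hh, hall⟩
  obtain ⟨y, hy, hxy⟩ := hwit h
  obtain ⟨K, hK⟩ := eventually_atTop.1 hxy
  obtain ⟨N, hN⟩ := eventually_atTop.1 (hall y hy)
  obtain ⟨k, hk1, hk2, hk3⟩ := hN (max N K) (le_max_left _ _)
  have hk4 : K ≤ k := (le_max_right N K).trans ((ha.1.id_le _).trans hk1)
  exact hK k hk4 hk3.symm

/-- the sets which are constant on an infinite set from some point on -/
theorem null_const {X : Set ℕ} (hX : X.Infinite) (n : ℕ) (v : Bool) :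
    coin {x | ∀ m ∈ X, n ≤ m → x m = v} = 0 := by
  have h1 : ∀ N : ℕ, coin {x | ∀ m ∈ X, n ≤ m → x m = v} ≤ (1 / 2) ^ N := by
    intro N
    have hY : (X \ Set.Iio n).Infinite := hX.sdiff (Set.finite_Iio n)
    obtain ⟨T, hT, hTc⟩ := hY.exists_subset_card_eq N
    have h2 : {x : ℕ → Bool | ∀ m ∈ X, n ≤ m → x m = v} ⊆
        Set.pi (T : Set ℕ) (fun _ => {v}) := by
      intro x hx m hm
      have h3 := hT hm
      exact hx m h3.1 (not_lt.1 h3.2)
    refine (measure_mono h2).trans ?_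
    unfold coin
    rw [Measure.infinitePi_pi _ (fun _ _ => MeasurableSet.of_discrete)]
    have h3 : (PMF.uniformOfFintype Bool).toMeasure {v} = 1 / 2 := by
      rw [PMF.toMeasure_apply_singleton _ _ (measurableSet_singleton _)]
      simp
    simp only [h3]
    rw [Finset.prod_const, hTc]
  have h4 : Tendsto (fun N : ℕ => ((1 : ℝ≥0∞) / 2) ^ N) atTop (nhds 0) := by
    apply ENNReal.tendsto_pow_atTop_nhds_zero_of_lt_one
    rw [one_div]
    exact ENNReal.inv_lt_one.2 (by norm_num)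
  exact le_antisymm (ge_of_tendsto' h4 h1) bot_le

theorem closed_const (X : Set ℕ) (n : ℕ) (v : Bool) :
    IsClosed {x : ℕ → Bool | ∀ m ∈ X, n ≤ m → x m = v} := by
  have h : {x : ℕ → Bool | ∀ m ∈ X, n ≤ m → x m = v} =
      ⋂ m : ℕ, ⋂ _ : m ∈ X, ⋂ _ : n ≤ m, {x : ℕ → Bool | x m = v} := by
    ext x
    simp
  rw [h]
  refine isClosed_iInter fun m => isClosed_iInter fun _ => isClosed_iInter fun _ => ?_
  exact isClosed_eq (continuous_apply m) continuous_const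

/-- the sets which do not split `X` -/
theorem isE_not_splits {X : Set ℕ} (hX : X.Infinite) : IsE {x | ¬ Splits x X} := by
  refine ⟨fun n => {x | ∀ m ∈ X, n ≤ m → x m = true} ∪ {x | ∀ m ∈ X, n ≤ m → x m = false},
    fun n => ⟨(closed_const X n true).union (closed_const X n false),
      measure_union_null (null_const hX n true) (null_const hX n false)⟩, fun x hx => ?_⟩
  have hx' : ¬ ({n | n ∈ X ∧ x n = true}.Infinite ∧ {n | n ∈ X ∧ x n = false}.Infinite) := hx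
  rw [not_and_or, Set.not_infinite, Set.not_infinite] at hx'
  rcases hx' with h | h
  · obtain ⟨B, hB⟩ := h.bddAbove
    refine Set.mem_iUnion.2 ⟨B + 1, Or.inr fun m hm hBm => ?_⟩
    by_contra hc
    have h1 : x m = true := by simpa using hc
    have h2 : m ≤ B := hB ⟨hm, h1⟩
    omega
  · obtain ⟨B, hB⟩ := h.bddAbove
    refine Set.mem_iUnion.2 ⟨B + 1, Or.inl fun m hm hBm => ?_⟩
    by_contra hc
    have h1 : x m = false := by simpa using hc
    have h2 : m ≤ B := hB ⟨hm, h1⟩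
    omega

theorem isE_mono {A B : Set (ℕ → Bool)} (h : A ⊆ B) (hB : IsE B) : IsE A := by
  obtain ⟨C, hC, hsub⟩ := hB
  exact ⟨C, hC, h.trans hsub⟩

theorem sNum_le_nonE : sNum ≤ nonE := by
  have hne : {κ | ∃ A : Set (ℕ → Bool), ¬ IsE A ∧ #A = κ}.Nonempty := by
    refine ⟨_, Set.univ, fun hE => ?_, rfl⟩
    have h1 := null_of_isE hE
    have h2 : coin Set.univ = 1 := measure_univ
    rw [h1] at h2
    exact zero_ne_one h2
  obtain ⟨A, hA, hcard⟩ := csInf_mem hne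
  have hcard' : #A = nonE := hcard
  rw [← hcard']
  refine csInf_le' ⟨A, fun X hX => ?_, rfl⟩
  by_contra hc
  push Not at hc
  exact hA (isE_mono (fun x hx => hc x hx) (isE_not_splits hX))

/-- **`𝔟_b^eq < non(ℰ)` for all summable `b` if `𝔡(≠*, b) < 𝔰` for all summable `b`.** -/
theorem result :
    (∀ b : ℕ → ℕ, (∀ k, 1 ≤ b k) → (∀ᶠ k in atTop, 2 ≤ b k) → bEq b ≤ dNe b) ∧
    sNum ≤ nonE ∧
    (∀ b : ℕ → ℕ, (∀ k, 1 ≤ b k) → (Summable fun k => (1 : ℝ) / b k) → dNe b < sNum →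
      bEq b < nonE) := by
  refine ⟨fun b hb hb2 => bEq_le_dNe hb hb2, sNum_le_nonE, fun b hb hs hlt => ?_⟩
  have hb2 : ∀ᶠ k in atTop, 2 ≤ b k := by
    have h1 := hs.tendsto_atTop_zero
    filter_upwards [h1.eventually (gt_mem_nhds (by norm_num : (0 : ℝ) < 1))] with k hk
    by_contra hc
    have h2 : b k = 1 := by
      have := hb k
      omega
    rw [h2] at hk
    norm_num at hk
  exact (bEq_le_dNe hb hb2).trans_lt (hlt.trans_le sNum_le_nonE)

end Pool.Agent.Results.MP_00464d_lc.MathiasModel
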